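import Pool.Agent.E8helper49.PC.Stm

/-!
# Project PC: GRP, the Galois group of `Ω = ℚ(ω, ∛l : l ∈ M)`
-/

set_option autoImplicit false

namespace Pool.Agent.E8helper36.PC

open Polynomial Pool.Agent.E8helper49.PC

variable {Ω : Type} [Field Ω]

lemma cube_cases {ω x y : Ω} (hω : ω ^ 2 + ω + 1 = 0) (h : x ^ 3 = y ^ 3) :
    x = y ∨ x = ω * y ∨ x = (-1 - ω) * y := by
  have h1 : (x - y) * ((x - ω * y) * (x - (-1 - ω) * y)) = 0 := by
    linear_combination h + (-(x - y) * y ^ 2) * hω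
  rcases mul_eq_zero.1 h1 with h2 | h2
  · exact Or.inl (sub_eq_zero.1 h2)
  rcases mul_eq_zero.1 h2 with h2 | h2
  · exact Or.inr (Or.inl (sub_eq_zero.1 h2))
  · exact Or.inr (Or.inr (sub_eq_zero.1 h2))

lemma om_cases {ω x : Ω} (hω : ω ^ 2 + ω + 1 = 0) (h : x ^ 2 + x + 1 = 0) :
    x = ω ∨ x = -1 - ω := by
  have h1 : (x - ω) * (x - (-1 - ω)) = 0 := by linear_combination h - hω
  rcases mul_eq_zero.1 h1 with h2 | h2
  · exact Or.inl (sub_eq_zero.1 h2)
  · exact Or.inr (sub_eq_zero.1 h2)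

lemma om_map [NumberField Ω] {ω : Ω} (hω : ω ^ 2 + ω + 1 = 0) (σ : Ω ≃ₐ[ℚ] Ω) : (σ ω) ^ 2 + σ ω + 1 = 0 := by
  have := congrArg σ hω
  simpa using this

/-- an automorphism that fixes the generators is the identity -/
lemma fix_all [NumberField Ω] {S : Set Ω} (hS : ∀ T : Subfield Ω, (∀ x ∈ S, x ∈ T) → T = ⊤) (τ : Ω ≃ₐ[ℚ] Ω)
    (h : ∀ x ∈ S, τ x = x) : τ = 1 := by
  have h1 := hS (RingHom.eqLocusField (τ : Ω →+* Ω) (RingHom.id Ω)) (fun x hx => by
    simpa [RingHom.mem_eqLocusField] using h x hx)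
  ext x
  have h2 : x ∈ RingHom.eqLocusField (τ : Ω →+* Ω) (RingHom.id Ω) := by rw [h1]; trivial
  simpa [RingHom.mem_eqLocusField] using h2

theorem t_GRP : S_GRP := by
  intro M Ω _ _ hM hC
  obtain ⟨ω₀, r, hω₀, hr, hgen⟩ := hC
  set S : Set Ω := {x | x = ω₀ ∨ ∃ l ∈ M, x = r l} with hS
  have hS' : ∀ T : Subfield Ω, (∀ x ∈ S, x ∈ T) → T = ⊤ := fun T hT =>
    hgen T (hT _ (Or.inl rfl)) (fun l hl => hT _ (Or.inr ⟨l, hl, rfl⟩))
  have hadj : IntermediateField.adjoin ℚ S = ⊤ := by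
    have h1 := hS' (IntermediateField.adjoin ℚ S).toSubfield
      (fun x hx => IntermediateField.subset_adjoin ℚ S hx)
    ext x
    refine ⟨fun _ => trivial, fun _ => ?_⟩
    have h2 : x ∈ (IntermediateField.adjoin ℚ S).toSubfield := by rw [h1]; trivial
    exact h2
  have hspl : ∀ x ∈ S, IsIntegral ℚ x ∧ ((minpoly ℚ x).map (algebraMap ℚ Ω)).Splits := by
    intro x hx
    refine ⟨Algebra.IsIntegral.isIntegral x, ?_⟩
    rcases hx with rfl | ⟨l, hl, rfl⟩
    · have hd : minpoly ℚ x ∣ (X ^ 2 + X + 1 : ℚ[X]) := minpoly.dvd ℚ x (by simpa using hω₀)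
      have hd' := Polynomial.map_dvd (algebraMap ℚ Ω) hd
      have he : (X ^ 2 + X + 1 : ℚ[X]).map (algebraMap ℚ Ω) = (X - C x) * (X - C (-1 - x)) := by
        have : (C x : Polynomial Ω) ^ 2 + C x + 1 = 0 := by
          rw [← C_pow, ← C_add, ← C_1, ← C_add, hω₀, C_0]
        simp only [Polynomial.map_add, Polynomial.map_pow, map_X, Polynomial.map_one, C_sub, C_neg,
          C_1]
        linear_combination this
      rw [he] at hd'
      exact ((Splits.X_sub_C _).mul (Splits.X_sub_C _)).of_dvd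
        (mul_ne_zero (X_sub_C_ne_zero _) (X_sub_C_ne_zero _)) hd'
    · have hd : minpoly ℚ (r l) ∣ (X ^ 3 - C (l : ℚ) : ℚ[X]) := minpoly.dvd ℚ (r l) (by
        simp [hr l hl])
      have hd' := Polynomial.map_dvd (algebraMap ℚ Ω) hd
      have he : (X ^ 3 - C (l : ℚ) : ℚ[X]).map (algebraMap ℚ Ω) =
          (X - C (r l)) * ((X - C (ω₀ * r l)) * (X - C ((-1 - ω₀) * r l))) := by
        have h1 : (C ω₀ : Polynomial Ω) ^ 2 + C ω₀ + 1 = 0 := by
          rw [← C_pow, ← C_add, ← C_1, ← C_add, hω₀, C_0]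
        have h2 : (C (r l) : Polynomial Ω) ^ 3 = C (l : Ω) := by rw [← C_pow, hr l hl]
        simp only [Polynomial.map_sub, Polynomial.map_pow, map_X, C_mul, C_sub, C_neg,
          C_1, map_natCast, Polynomial.map_natCast]
        simp only [map_natCast] at h2
        linear_combination (X - C (r l)) * C (r l) ^ 2 * h1 + h2
      rw [he] at hd'
      exact ((Splits.X_sub_C _).mul ((Splits.X_sub_C _).mul (Splits.X_sub_C _))).of_dvd
        (mul_ne_zero (X_sub_C_ne_zero _) (mul_ne_zero (X_sub_C_ne_zero _) (X_sub_C_ne_zero _))) hd'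
  have hnorm : Normal ℚ Ω := ⟨fun x => by
    have hx : x ∈ IntermediateField.adjoin ℚ S := by rw [hadj]; trivial
    exact IntermediateField.splits_of_mem_adjoin ℚ Ω hspl hx⟩
  have hgal : IsGalois ℚ Ω := ⟨⟩
  refine ⟨hgal, fun ω hω => ⟨fun σ hσ => ?_, fun σ hσ => ?_, ?_⟩⟩
  · -- an involution
    have hσω : σ ω = -1 - ω := (om_cases hω (om_map hω σ)).resolve_left hσ
    refine fix_all hS' _ (fun x hx => ?_)
    rw [AlgEquiv.mul_apply]
    rcases hx with rfl | ⟨l, hl, rfl⟩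
    · rcases om_cases hω hω₀ with h | h
      · rw [h, hσω]; simp [hσω]
      · rw [h]; simp [hσω]
    · have h3 : (σ (r l)) ^ 3 = (r l) ^ 3 := by
        rw [← map_pow, hr l hl, map_natCast]
      rcases cube_cases hω h3 with h | h | h
      · rw [h, h]
      · rw [h, map_mul, hσω, h]
        linear_combination (-(r l)) * hω
      · rw [h, map_mul, map_sub, map_neg, map_one, hσω, h]
        linear_combination (-(r l)) * hω
  · -- order three
    have hω3 : ω ^ 3 = 1 := by linear_combination (ω - 1) * hω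
    refine fix_all hS' _ (fun x hx => ?_)
    rw [AlgEquiv.mul_apply, AlgEquiv.mul_apply]
    rcases hx with rfl | ⟨l, hl, rfl⟩
    · rcases om_cases hω hω₀ with h | h
      · rw [h, hσ, hσ, hσ]
      · rw [h]; simp [hσ]
    · have h3 : (σ (r l)) ^ 3 = (r l) ^ 3 := by
        rw [← map_pow, hr l hl, map_natCast]
      rcases cube_cases hω h3 with h | h | h
      · rw [h, h, h]
      · rw [h, map_mul, map_mul, hσ, h, hσ, map_mul, hσ, h]
        linear_combination (r l) * hω3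
      · have h1 : σ (-1 - ω) = -1 - ω := by rw [map_sub, map_neg, map_one, hσ]
        rw [h, map_mul, map_mul, h1, h, h1, map_mul, h1, h]
        have h2 : (-1 - ω) ^ 3 = 1 := by linear_combination (-(ω + 2)) * hω
        linear_combination (r l) * h2
  · by_contra hno
    push Not at hno
    have h1 : ω ∈ (⊥ : IntermediateField ℚ Ω) := (IsGalois.mem_bot_iff_fixed ω).2 hno
    obtain ⟨q, hq⟩ := IntermediateField.mem_bot.1 h1
    have h2 : q ^ 2 + q + 1 = 0 := by
      have : algebraMap ℚ Ω (q ^ 2 + q + 1) = 0 := by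
        rw [map_add, map_add, map_pow, map_one, hq, hω]
      exact (map_eq_zero _).1 this
    nlinarith [sq_nonneg (2 * q + 1)]

end Pool.Agent.E8helper36.PC
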